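import Mathlib

set_option autoImplicit false

namespace Pool.Agent.Results.MP_2568f3_co.Counter

/-- The sum of the `j` smallest entries of `c`. -/
def low {k : ℕ} (c : Fin k → ℕ) (j : ℕ) : ℕ :=
  (((List.ofFn c).insertionSort (· ≤ ·)).take j).sum

/-- Degree of the vertex `v` of the second side in the edge set `F`. -/
def deg {n : ℕ} (F : Finset (Fin n × Fin n)) (v : Fin n) : ℕ := (F.filter fun e => e.2 = v).card

def a : Fin 3 → Fin 5 → ℕ := ![![0, 0, 0, 0, 1], ![2, 2, 2, 2, 5], ![3, 3, 3, 3, 5]]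

def F0 (i : Fin 3) : Finset (Fin 5 × Fin 5) := Finset.univ.filter fun e => e.1.val < a i e.2

lemma key : ∀ x y z : Fin 5, x ≠ y → x ≠ z → y ≠ z → ∃ j ∈ Finset.Icc 1 3,
    low (fun i => deg (F0 i) (![x, y, z] i)) j ≤ j * (j - 1) := by decide +kernel

theorem result :
    ∃ (k n : ℕ) (F : Fin k → Finset (Fin n × Fin n)), 1 ≤ k ∧ 1 ≤ n ∧
      (∀ j ∈ Finset.Icc 1 k, j * (j - 1) * n < low (fun i => (F i).card) j) ∧
      ∀ u : Fin k → Fin n, Function.Injective u →
        ∃ j ∈ Finset.Icc 1 k, low (fun i => deg (F i) (u i)) j ≤ j * (j - 1) := by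
  refine ⟨3, 5, F0, by norm_num, by norm_num, by decide +kernel, fun u hu => ?_⟩
  have e : u = ![u 0, u 1, u 2] := by funext i; fin_cases i <;> rfl
  rw [e]
  exact key _ _ _ (hu.ne (by decide)) (hu.ne (by decide)) (hu.ne (by decide))

end Pool.Agent.Results.MP_2568f3_co.Counter
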